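import Pool.Agent.Helper73.SEM.Main
import Pool.Agent.Helper73.AA.C7

/-!
# MP_138ac9_co: almost all trees are super edge-magic

The proportion of the trees on the vertex set `{0, ..., n-1}` that are super edge-magic tends to `1` as `n` tends to infinity.
-/

set_option autoImplicit false

namespace Pool.Agent.Results.MP_138ac9_co.AlmostAllTrees

open Finset Filter Topology

open Classical in
/-- Among the labelled trees on `n` vertices (the trees with vertex set `Fin n`) the proportion of those which have a super edge-magic labelling (in the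
form of the frozen statement) tends to `1`. -/
theorem result :
    Tendsto (fun n : ℕ =>
      ((univ.filter fun G : SimpleGraph (Fin n) => G.IsTree ∧
          ∃ (f : Fin n → ℕ) (g : G.edgeSet → ℕ) (k : ℕ),
            Function.Injective f ∧ (∀ v, 1 ≤ f v ∧ f v ≤ n) ∧
            Function.Injective g ∧ (∀ e, n + 1 ≤ g e ∧ g e < 2 * n) ∧
            ∀ (e : G.edgeSet) (u v : Fin n), (e : Sym2 (Fin n)) = s(u, v) →
              f u + g e + f v = k).card : ℝ) /
        ((univ.filter fun G : SimpleGraph (Fin n) => G.IsTree).card : ℝ)) atTop (𝓝 1) := by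
  refine AA.almost_all (fun n G => ∃ (f : Fin n → ℕ) (g : G.edgeSet → ℕ) (k : ℕ),
            Function.Injective f ∧ (∀ v, 1 ≤ f v ∧ f v ≤ n) ∧
            Function.Injective g ∧ (∀ e, n + 1 ≤ g e ∧ g e < 2 * n) ∧
            ∀ (e : G.edgeSet) (u v : Fin n), (e : Sym2 (Fin n)) = s(u, v) →
              f u + g e + f v = k) ?_
  exact SEM.sem_graph (1 / 20) (by norm_num)

end Pool.Agent.Results.MP_138ac9_co.AlmostAllTrees
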