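import Pool.Agent.Helper73.BD.Z

/-!
# MP_138ac9_co: every large tree of bounded maximum degree is super edge-magic

For every `D` there is `n₀` such that every tree with `n ≥ n₀` vertices, all of degree at most `D`, is super edge-magic.
-/

set_option autoImplicit false

namespace Pool.Agent.Results.MP_138ac9_co.BoundedDegree

open Classical in
/-- For every `D` there is `n₀` such that every tree `G` on `n ≥ n₀` vertices in which all degrees are at most `D` has a super edge-magic labelling
(in the form of the frozen statement). -/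
theorem result :
    ∀ D : ℕ, ∃ n₀ : ℕ, ∀ (n : ℕ) (G : SimpleGraph (Fin n)), n₀ ≤ n → G.IsTree → (∀ v, G.degree v ≤ D) →
      ∃ (f : Fin n → ℕ) (g : G.edgeSet → ℕ) (k : ℕ),
        Function.Injective f ∧ (∀ v, 1 ≤ f v ∧ f v ≤ n) ∧
        Function.Injective g ∧ (∀ e, n + 1 ≤ g e ∧ g e < 2 * n) ∧
        ∀ (e : G.edgeSet) (u v : Fin n), (e : Sym2 (Fin n)) = s(u, v) →
          f u + g e + f v = k := by
  intro D
  obtain ⟨n0, h⟩ := BD.main1 D
  exact ⟨n0, fun n G hn hG hd => h n G hn hG hd⟩

end Pool.Agent.Results.MP_138ac9_co.BoundedDegree
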