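import Pool.Agent.Helper73.SEM.FP3

/-!
# MP_138ac9_co: trees of maximum degree at most δn with linearly many pendant paths of length two are super edge-magic

For every `ε > 0` there are `δ > 0` and `n₀` such that every tree with `n ≥ n₀` vertices, with maximum degree at most `δ n` and
with at least `ε n` leaves whose neighbour has degree two, is super edge-magic.
-/

set_option autoImplicit false

namespace Pool.Agent.Results.MP_138ac9_co.ManyPendantPaths

open Finset

open Classical in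
/-- For every `ε > 0` there are `δ > 0` and `n₀` such that every tree `G` on `n ≥ n₀` vertices in which all degrees are at most `δ n` and
in which at least `ε n` leaves have a neighbour of degree two has a super edge-magic labelling (in the form of the frozen statement). -/
theorem result :
    ∀ ε : ℝ, 0 < ε → ∃ δ : ℝ, 0 < δ ∧ ∃ n₀ : ℕ, ∀ (n : ℕ) (G : SimpleGraph (Fin n)), n₀ ≤ n →
      G.IsTree → (∀ v, (G.degree v : ℝ) ≤ δ * n) →
      ε * n ≤ ((univ.filter fun u : Fin n =>
        G.degree u = 1 ∧ ∃ w, G.Adj u w ∧ G.degree w = 2).card : ℝ) →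
      ∃ (f : Fin n → ℕ) (g : G.edgeSet → ℕ) (k : ℕ),
        Function.Injective f ∧ (∀ v, 1 ≤ f v ∧ f v ≤ n) ∧
        Function.Injective g ∧ (∀ e, n + 1 ≤ g e ∧ g e < 2 * n) ∧
        ∀ (e : G.edgeSet) (u v : Fin n), (e : Sym2 (Fin n)) = s(u, v) →
          f u + g e + f v = k := by
  intro ε hε
  obtain ⟨ε', hε', hε1, hεε⟩ : ∃ ε' : ℝ, 0 < ε' ∧ ε' ≤ 1 ∧ 2 * ε' ≤ ε :=
    ⟨min (ε / 2) 1, by positivity, min_le_right _ _, by
      have := min_le_left (ε / 2) 1
      linarith⟩
  obtain ⟨δ, hδ, n0, hmain⟩ := SEM.sem_main ε' hε' hε1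
  refine ⟨δ, hδ, max (max n0 4) ⌈2 / ε'⌉₊, ?_⟩
  intro n G hn hG hdeg hleaf
  have h0 : n0 ≤ n := ((le_max_left _ _).trans (le_max_left _ _)).trans hn
  have h4 : 4 ≤ n := ((le_max_right _ _).trans (le_max_left _ _)).trans hn
  have h2 : 2 / ε' ≤ n := by
    have h1 : ⌈2 / ε'⌉₊ ≤ n := (le_max_right _ _).trans hn
    have h2 := Nat.le_ceil (2 / ε')
    have h3 : ((⌈2 / ε'⌉₊ : ℕ) : ℝ) ≤ n := by exact_mod_cast h1
    linarith
  have h2' : 2 ≤ ε' * n := by
    rw [div_le_iff₀ hε'] at h2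
    linarith
  obtain ⟨p, hp, hchl, hpend, hres⟩ := SEM.to_parent h4 G hG
  have hn0 : (0 : ℝ) ≤ n := Nat.cast_nonneg n
  haveI : Nonempty (Fin n) := ⟨⟨0, by omega⟩⟩
  obtain ⟨v0, hv0⟩ := G.exists_maximal_degree_vertex
  refine hres (hmain n p h0 hp ?_ ?_)
  · intro v hv
    have h1 : ((SEM.chl n p v).card : ℝ) ≤ G.maxDegree := by exact_mod_cast hchl v hv
    rw [hv0] at h1
    exact h1.trans (hdeg v0)
  · have h1 : ((univ.filter fun u : Fin n =>
        G.degree u = 1 ∧ ∃ w, G.Adj u w ∧ G.degree w = 2).card : ℝ) ≤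
        ((range n).filter fun v => SEM.Pend n p v).card + 2 := by exact_mod_cast hpend
    nlinarith

end Pool.Agent.Results.MP_138ac9_co.ManyPendantPaths
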